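import Pool.Agent.W500.CS.Stm2

/-!
# CQ-ARC: the image of a short interval under a non-constant analytic map is an analytic arc
-/

set_option autoImplicit false

open MeasureTheory Polynomial Metric Set Filter Topology
open scoped ComplexConjugate

namespace Pool.Agent.W356.CQ.ARC

open Pool.Agent.W500.CS

/-- an even analytic germ is an analytic function of the square -/
lemma even_germ (F : ℝ → ℂ) (hF : AnalyticAt ℝ F 0) (he : ∀ᶠ t in 𝓝 (0:ℝ), F t = F (-t)) :
    ∃ F1 : ℝ → ℂ, AnalyticAt ℝ F1 0 ∧ ∀ᶠ t in 𝓝 (0:ℝ), F t = F1 (t ^ 2) := by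
  obtain ⟨p, hp⟩ := hF
  rw [hasFPowerSeriesAt_iff] at hp
  simp only [zero_add] at hp
  have hneg : Tendsto (fun t : ℝ => -t) (𝓝 0) (𝓝 0) := by
    have := (continuous_neg (G := ℝ)).tendsto 0
    simpa using this
  have hp2 : ∀ᶠ t in 𝓝 (0:ℝ), HasSum (fun n => (-t) ^ n • p.coeff n) (F (-t)) :=
    hneg.eventually hp
  have hinj : Function.Injective (fun k : ℕ => 2 * k) := by
    intro a b h
    simpa using h
  have hE : ∀ᶠ t in 𝓝 (0:ℝ), HasSum (fun k => (t ^ 2) ^ k • p.coeff (2 * k)) (F t) := by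
    filter_upwards [hp, hp2, he] with t h1 h2 h3
    rw [← h3] at h2
    have h4 := (h1.add h2).const_smul (1 / 2 : ℝ)
    have h5 : (1 / 2 : ℝ) • (F t + F t) = F t := by
      rw [← two_smul ℝ (F t), smul_smul]
      norm_num
    rw [h5, ← hinj.hasSum_iff] at h4
    · have h6 : ((fun i => (1 / 2 : ℝ) • (t ^ i • p.coeff i + (-t) ^ i • p.coeff i)) ∘
          fun k => 2 * k) = fun k => (t ^ 2) ^ k • p.coeff (2 * k) := by
        funext k
        simp only [Function.comp]
        rw [← add_smul, smul_smul]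
        congr 1
        rw [Even.neg_pow (even_two_mul k), pow_mul]
        ring
      rw [h6] at h4
      exact h4
    · intro n hn
      have hodd : Odd n := by
        rw [← Nat.not_even_iff_odd]
        rintro ⟨k, hk⟩
        exact hn ⟨k, by simp only []; omega⟩
      rw [Odd.neg_pow hodd, neg_smul, add_neg_cancel, smul_zero]
  refine ⟨fun u => ∑' k, u ^ k • p.coeff (2 * k), ?_, ?_⟩
  · obtain ⟨q, hq⟩ : ∃ q : FormalMultilinearSeries ℝ ℝ ℂ, ∀ k, q.coeff k = p.coeff (2 * k) :=
      ⟨fun k => ContinuousMultilinearMap.mkPiRing ℝ (Fin k) (p.coeff (2 * k)), fun k => by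
        change (ContinuousMultilinearMap.mkPiRing ℝ (Fin k) (p.coeff (2 * k))) 1 = _
        rw [ContinuousMultilinearMap.mkPiRing_apply]
        simp only [Pi.one_apply, Finset.prod_const_one, one_smul]⟩
    refine ⟨q, ?_⟩
    rw [hasFPowerSeriesAt_iff]
    simp only [hq, zero_add]
    have hs : Tendsto (fun u : ℝ => √|u|) (𝓝 0) (𝓝 0) := by
      have : Continuous (fun u : ℝ => √|u|) := by fun_prop
      have := this.tendsto 0
      simpa using this
    filter_upwards [hs.eventually hp] with u hu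
    have h1 := hu.summable.norm
    have h2 := h1.comp_injective hinj
    have h3 : Summable (fun k => u ^ k • p.coeff (2 * k)) := by
      apply Summable.of_norm
      refine h2.congr ?_
      intro k
      simp only [Function.comp, norm_smul, norm_pow, Real.norm_eq_abs]
      rw [abs_of_nonneg (Real.sqrt_nonneg _), pow_mul, Real.sq_sqrt (abs_nonneg u)]
    exact h3.hasSum
  · filter_upwards [hE] with t ht
    exact ht.tsum_eq.symm

lemma exists_tau (g : ℝ → ℂ) (hg : AnalyticAt ℝ g 0) (hg0 : g 0 ≠ 0) (n : ℕ) (hn : 0 < n) :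
    ∃ τ : ℝ → ℝ, AnalyticAt ℝ τ 0 ∧ τ 0 = 0 ∧ 0 < deriv τ 0 ∧
      ∀ᶠ q in 𝓝 (0:ℝ), ‖(q:ℝ) ^ n • g q‖ = |τ q| ^ n := by
  have hN : AnalyticAt ℝ (fun q => (g q).re ^ 2 + (g q).im ^ 2) 0 := by
    have h1 : AnalyticAt ℝ (fun q => (g q).re) 0 :=
      (Complex.reCLM.analyticAt (g 0)).comp hg
    have h2 : AnalyticAt ℝ (fun q => (g q).im) 0 :=
      (Complex.imCLM.analyticAt (g 0)).comp hg
    exact (h1.pow 2).add (h2.pow 2)
  have hNe : ∀ q, (g q).re ^ 2 + (g q).im ^ 2 = ‖g q‖ ^ 2 := by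
    intro q
    rw [← Complex.normSq_eq_norm_sq, Complex.normSq_apply]
    ring
  have hpos : 0 < (g 0).re ^ 2 + (g 0).im ^ 2 := by
    rw [hNe]
    exact pow_pos (norm_pos_iff.2 hg0) 2
  have hE : AnalyticAt ℝ
      (fun q => Real.exp (Real.log ((g q).re ^ 2 + (g q).im ^ 2) * (1 / (2 * n)))) 0 := by
    apply AnalyticAt.rexp'
    exact (hN.log hpos).mul analyticAt_const
  obtain ⟨E, hEd⟩ : ∃ E : ℝ → ℝ, E =
    (fun q => Real.exp (Real.log ((g q).re ^ 2 + (g q).im ^ 2) * (1 / (2 * n)))) := ⟨_, rfl⟩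
  rw [← hEd] at hE
  refine ⟨fun q => q * E q, analyticAt_id.mul hE, by simp, ?_, ?_⟩
  · have h1 : HasDerivAt (fun q => q * E q) (1 * E 0 + 0 * deriv E 0) 0 :=
      (hasDerivAt_id 0).mul hE.differentiableAt.hasDerivAt
    rw [h1.deriv, hEd]
    simp only [one_mul, zero_mul, add_zero]
    exact Real.exp_pos _
  · have hne : ∀ᶠ q in 𝓝 (0:ℝ), g q ≠ 0 := hg.continuousAt.eventually_ne hg0
    filter_upwards [hne] with q hq
    rw [norm_smul, norm_pow, Real.norm_eq_abs, abs_mul, mul_pow]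
    congr 1
    rw [hEd]
    simp only []
    rw [abs_of_pos (Real.exp_pos _), ← Real.exp_nat_mul, hNe, Real.log_pow]
    have h2 : (n:ℝ) * ((2:ℕ) * Real.log ‖g q‖ * (1 / (2 * n))) = Real.log ‖g q‖ := by
      have : (n:ℝ) ≠ 0 := by positivity
      field_simp
      push_cast
      ring
    rw [h2, Real.exp_log (norm_pos_iff.2 hq)]

lemma concl_of_inj (f : ℝ → ℂ) (hf : AnalyticAt ℝ f 0) (ρ : ℝ) (hρ : 0 < ρ)
    (hinj : InjOn f (Ioo (-ρ) ρ)) :
    ∃ ε₀ > 0, ∀ ε : ℝ, 0 < ε → ε < ε₀ → IsArc (f '' Icc 0 ε) := by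
  obtain ⟨ρ', hρ', hball⟩ := Metric.eventually_nhds_iff_ball.1 hf.eventually_analyticAt
  obtain ⟨R, hR, hR1, hR2⟩ : ∃ R > 0, R ≤ ρ ∧ R ≤ ρ' :=
    ⟨min ρ ρ', lt_min hρ hρ', min_le_left _ _, min_le_right _ _⟩
  refine ⟨R / 2, by positivity, fun ε h1 h2 =>
    ⟨fun t => f (ε * t), -1, 2, by norm_num, by norm_num, ?_, ?_, ?_⟩⟩
  · intro t ht
    have h3 : AnalyticAt ℝ f (ε * t) := by
      apply hball
      rw [mem_ball_zero_iff, Real.norm_eq_abs, abs_lt]
      constructor
      · nlinarith [ht.1, ht.2]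
      · nlinarith [ht.1, ht.2]
    exact AnalyticAt.fun_comp (f := fun t : ℝ => ε * t) h3 (analyticAt_const.mul analyticAt_id)
  · intro s hs t ht h
    have h3 : ∀ x ∈ Ioo (-1:ℝ) 2, ε * x ∈ Ioo (-ρ) ρ := by
      intro x hx
      constructor
      · nlinarith [hx.1, hx.2]
      · nlinarith [hx.1, hx.2]
    have := hinj (h3 s hs) (h3 t ht) h
    exact mul_left_cancel₀ h1.ne' this
  · ext z
    constructor
    · rintro ⟨x, hx, rfl⟩
      refine ⟨x / ε, ⟨div_nonneg hx.1 h1.le, (div_le_one h1).2 hx.2⟩, ?_⟩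
      simp only []
      rw [mul_div_cancel₀ _ h1.ne']
    · rintro ⟨t, ht, rfl⟩
      refine ⟨ε * t, ⟨mul_nonneg h1.le ht.1, ?_⟩, rfl⟩
      nlinarith [ht.2]

lemma key : ∀ n : ℕ, ∀ (f g : ℝ → ℂ), AnalyticAt ℝ f 0 → AnalyticAt ℝ g 0 → g 0 ≠ 0 →
    (∀ᶠ q in 𝓝 (0:ℝ), f q - f 0 = (q:ℝ) ^ n • g q) → 0 < n →
    ∃ ε₀ > 0, ∀ ε : ℝ, 0 < ε → ε < ε₀ → IsArc (f '' Icc 0 ε) := by
  intro n
  induction n using Nat.strong_induction_on with
  | _ n IH =>
    intro f g hf hg hg0 hfg hn
    obtain ⟨τ, hτ, hτ0, hτ', hτn⟩ := exists_tau g hg hg0 n hn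
    have hne : deriv τ 0 ≠ 0 := hτ'.ne'
    obtain ⟨S, hS⟩ : ∃ S, S = hτ.hasStrictDerivAt.localInverse _ _ _ hne := ⟨_, rfl⟩
    have hSa : AnalyticAt ℝ S (τ 0) := by
      rw [hS]
      exact hτ.analyticAt_localInverse hne
    have hSl : ∀ᶠ q in 𝓝 0, S (τ q) = q := by
      rw [hS]
      exact HasStrictDerivAt.eventually_left_inverse ..
    have hSr : ∀ᶠ t in 𝓝 (τ 0), τ (S t) = t := by
      rw [hS]
      exact HasStrictDerivAt.eventually_right_inverse ..
    rw [hτ0] at hSa hSr
    have hS0 : S 0 = 0 := by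
      have := hSl.self_of_nhds
      rwa [hτ0] at this
    have hSt : Tendsto S (𝓝 0) (𝓝 0) := by
      have := hSa.continuousAt.tendsto
      rwa [hS0] at this
    have hτt : Tendsto τ (𝓝 0) (𝓝 0) := by
      have := hτ.continuousAt.tendsto
      rwa [hτ0] at this
    have hnegt : Tendsto (fun t : ℝ => -t) (𝓝 0) (𝓝 0) := by
      have := (continuous_neg (G := ℝ)).tendsto 0
      simpa using this
    have hFa : AnalyticAt ℝ (fun t => f (S t)) 0 := by
      have : AnalyticAt ℝ f (S 0) := by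
        rw [hS0]
        exact hf
      exact this.fun_comp hSa
    have hFm : AnalyticAt ℝ (fun t => f (S (-t))) 0 := by
      have h1 : AnalyticAt ℝ (fun t => f (S t)) (-0) := by
        rw [neg_zero]
        exact hFa
      exact AnalyticAt.fun_comp (f := fun t : ℝ => -t) h1 analyticAt_id.neg
    have hFn : ∀ᶠ t in 𝓝 (0:ℝ), ‖f (S t) - f 0‖ = |t| ^ n := by
      filter_upwards [hSt.eventually hfg, hSt.eventually hτn, hSr] with t h1 h2 h3
      rw [h1, h2, h3]
    rcases hFa.eventually_eq_or_eventually_ne hFm with hB | hA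
    · -- the even case
      obtain ⟨F1, hF1, hF1e⟩ := even_germ _ hFa hB
      have hF10 : F1 0 = f 0 := by
        have := hF1e.self_of_nhds
        rw [hS0] at this
        simpa using this.symm
      have hnc : ¬ ∀ᶠ u in 𝓝 (0:ℝ), F1 u - F1 0 = 0 := by
        intro h
        have hsq : Tendsto (fun t : ℝ => t ^ 2) (𝓝 0) (𝓝 0) := by
          have := (continuous_pow (M := ℝ) 2).tendsto 0
          simpa using this
        have h1 : ∀ᶠ t in 𝓝[≠] (0:ℝ), False := by
          filter_upwards [(hsq.eventually h).filter_mono nhdsWithin_le_nhds,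
            hF1e.filter_mono nhdsWithin_le_nhds, hFn.filter_mono nhdsWithin_le_nhds,
            self_mem_nhdsWithin] with t h1 h2 h3 h4
          rw [h2, ← hF10, h1, norm_zero] at h3
          have : 0 < |t| ^ n := pow_pos (abs_pos.2 h4) n
          linarith
        exact h1.exists.elim fun _ h => h
      have hF1s : AnalyticAt ℝ (fun u => F1 u - F1 0) 0 := hF1.sub analyticAt_const
      obtain ⟨m, g1, hg1, hg10, hm⟩ := hF1s.exists_eventuallyEq_pow_smul_nonzero_iff.2 hnc
      simp only [sub_zero] at hm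
      have hm0 : 0 < m := by
        rcases Nat.eq_zero_or_pos m with h | h
        · exfalso
          have := hm.self_of_nhds
          rw [h] at this
          simp at this
          exact hg10 this.symm
        · exact h
      have hmn : m < n := by
        by_contra hcon
        push Not at hcon
        have hsq : Tendsto (fun t : ℝ => t ^ 2) (𝓝 0) (𝓝 0) := by
          have := (continuous_pow (M := ℝ) 2).tendsto 0
          simpa using this
        have h1 : Tendsto (fun t : ℝ => |t| ^ (2 * m - n) * ‖g1 (t ^ 2)‖) (𝓝[≠] 0)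
            (𝓝 (0 * ‖g1 0‖)) := by
          apply Tendsto.mono_left _ nhdsWithin_le_nhds
          apply Tendsto.mul
          · have h2 : Continuous (fun t : ℝ => |t| ^ (2 * m - n)) := by fun_prop
            have h3 := h2.tendsto 0
            rw [abs_zero, zero_pow (by omega)] at h3
            exact h3
          · exact (hg1.continuousAt.tendsto.comp hsq).norm
        have h2 : ∀ᶠ t in 𝓝[≠] (0:ℝ), |t| ^ (2 * m - n) * ‖g1 (t ^ 2)‖ = 1 := by
          filter_upwards [(hsq.eventually hm).filter_mono nhdsWithin_le_nhds,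
            hF1e.filter_mono nhdsWithin_le_nhds, hFn.filter_mono nhdsWithin_le_nhds,
            self_mem_nhdsWithin] with t h1 h2 h3 h4
          rw [h2, ← hF10, h1, norm_smul, norm_pow, norm_pow, Real.norm_eq_abs, ← pow_mul] at h3
          have h5 : 0 < |t| := abs_pos.2 h4
          have h6 : |t| ^ (2 * m) = |t| ^ n * |t| ^ (2 * m - n) := by
            rw [← pow_add]
            congr 1
            omega
          rw [h6, mul_assoc] at h3
          have h7 : |t| ^ n ≠ 0 := (pow_pos h5 n).ne'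
          exact mul_left_cancel₀ h7 (h3.trans (mul_one _).symm)
        have h3 : Tendsto (fun t : ℝ => |t| ^ (2 * m - n) * ‖g1 (t ^ 2)‖) (𝓝[≠] 0) (𝓝 1) :=
          tendsto_const_nhds.congr' (h2.mono fun _ h => h.symm)
        have := tendsto_nhds_unique h1 h3
        simp at this
      obtain ⟨ε₁, hε₁, hIH⟩ := IH m hmn F1 g1 hF1 hg1 hg10 hm hm0
      -- the neighbourhood
      have hev : ∀ᶠ q in 𝓝 (0:ℝ), f q = F1 ((τ q) ^ 2) ∧ (τ q) ^ 2 < ε₁ ∧ 0 < deriv τ q ∧
          AnalyticAt ℝ τ q := by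
        have h1 : Tendsto (fun q => (τ q) ^ 2) (𝓝 0) (𝓝 0) := by
          have := hτt.pow 2
          simpa using this
        have h2 : ∀ᶠ q in 𝓝 (0:ℝ), 0 < deriv τ q :=
          hτ.deriv.continuousAt.eventually (lt_mem_nhds hτ')
        filter_upwards [hτt.eventually hF1e, hSl, h1.eventually (gt_mem_nhds hε₁), h2,
          hτ.eventually_analyticAt] with q a1 a2 a3 a4 a5
        rw [a2] at a1
        exact ⟨a1, a3, a4, a5⟩
      obtain ⟨ρ, hρ, hball⟩ := Metric.eventually_nhds_iff_ball.1 hev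
      refine ⟨ρ, hρ, fun ε h1 h2 => ?_⟩
      have hin : ∀ x ∈ Icc (0:ℝ) ε, x ∈ ball (0:ℝ) ρ := by
        intro x hx
        rw [mem_ball_zero_iff, Real.norm_eq_abs, abs_of_nonneg hx.1]
        exact lt_of_le_of_lt hx.2 h2
      have hcont : ContinuousOn τ (Icc 0 ε) := fun x hx =>
        ((hball x (hin x hx)).2.2.2).continuousAt.continuousWithinAt
      have hmono : StrictMonoOn τ (Icc 0 ε) := by
        apply strictMonoOn_of_deriv_pos (convex_Icc 0 ε) hcont
        intro x hx
        exact (hball x (hin x (interior_subset hx))).2.2.1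
      have h0m : (0:ℝ) ∈ Icc 0 ε := ⟨le_refl _, h1.le⟩
      have hεm : ε ∈ Icc 0 ε := ⟨h1.le, le_refl _⟩
      have hτpos : 0 < τ ε := by
        have := hmono h0m hεm h1
        rwa [hτ0] at this
      have hset : f '' Icc 0 ε = F1 '' Icc 0 ((τ ε) ^ 2) := by
        ext z
        constructor
        · rintro ⟨x, hx, rfl⟩
          have h3 : 0 ≤ τ x := by
            have := hmono.monotoneOn h0m hx hx.1
            rwa [hτ0] at this
          have h4 : τ x ≤ τ ε := hmono.monotoneOn hx hεm hx.2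
          exact ⟨(τ x) ^ 2, ⟨sq_nonneg _, by gcongr⟩, ((hball x (hin x hx)).1).symm⟩
        · rintro ⟨u, hu, rfl⟩
          have h3 : √u ∈ Icc (τ 0) (τ ε) := by
            rw [hτ0]
            exact ⟨Real.sqrt_nonneg _, Real.sqrt_le_iff.2 ⟨hτpos.le, hu.2⟩⟩
          obtain ⟨x, hx, hxu⟩ := intermediate_value_Icc h1.le hcont h3
          refine ⟨x, hx, ?_⟩
          rw [(hball x (hin x hx)).1, hxu, Real.sq_sqrt hu.1]
      rw [hset]
      exact hIH _ (pow_pos hτpos 2) (hball ε (hin ε hεm)).2.1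
    · -- the injective case
      have hA' : ∀ᶠ t in 𝓝 (0:ℝ), t ≠ 0 → f (S t) ≠ f (S (-t)) := by
        rw [eventually_nhdsWithin_iff] at hA
        exact hA
      obtain ⟨ρ₁, hρ₁, hb1⟩ := Metric.eventually_nhds_iff_ball.1 (hA'.and hFn)
      have hinjF : ∀ s ∈ ball (0:ℝ) ρ₁, ∀ t ∈ ball (0:ℝ) ρ₁, f (S s) = f (S t) → s = t := by
        intro s hs t ht hst
        have h1 := (hb1 s hs).2
        have h2 := (hb1 t ht).2
        rw [hst, h2] at h1
        have h3 : |t| = |s| := (pow_left_inj₀ (abs_nonneg t) (abs_nonneg s) hn.ne').1 h1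
        rcases abs_eq_abs.1 h3 with h4 | h4
        · exact h4.symm
        · by_cases h5 : s = 0
          · rw [h4, h5, neg_zero]
          · exfalso
            have := (hb1 s hs).1 h5
            rw [← h4] at this
            exact this hst
      obtain ⟨ρ, hρ, hball⟩ := Metric.eventually_nhds_iff_ball.1
        (hSl.and (hτt.eventually (ball_mem_nhds 0 hρ₁)))
      apply concl_of_inj f hf ρ hρ
      intro s hs t ht hst
      have hs' : s ∈ ball (0:ℝ) ρ := by
        rw [mem_ball_zero_iff, Real.norm_eq_abs, abs_lt]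
        exact hs
      have ht' : t ∈ ball (0:ℝ) ρ := by
        rw [mem_ball_zero_iff, Real.norm_eq_abs, abs_lt]
        exact ht
      have h1 := hball s hs'
      have h2 := hball t ht'
      have h3 : τ s = τ t := by
        apply hinjF _ h1.2 _ h2.2
        rw [h1.1, h2.1]
        exact hst
      rw [← h1.1, h3, h2.1]

theorem main : S_ARC := by
  intro f hf hnc
  have h1 : ¬ ∀ᶠ q in 𝓝 (0:ℝ), f q - f 0 = 0 := by
    intro h
    apply hnc
    exact (h.filter_mono nhdsWithin_le_nhds).mono fun q hq => sub_eq_zero.1 hq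
  have h2 : AnalyticAt ℝ (fun q => f q - f 0) 0 := hf.sub analyticAt_const
  obtain ⟨n, g, hg, hg0, hn⟩ := h2.exists_eventuallyEq_pow_smul_nonzero_iff.2 h1
  simp only [sub_zero] at hn
  have hn0 : 0 < n := by
    rcases Nat.eq_zero_or_pos n with h | h
    · exfalso
      have := hn.self_of_nhds
      rw [h] at this
      simp at this
      exact hg0 this.symm
    · exact h
  exact key n f g hf hg hg0 hn hn0

end Pool.Agent.W356.CQ.ARC
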