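import Pool.Agent.W500.CS.Stm

/-!
# CQ-LIM0: one-sided limit at the centre of a punctured disc
-/

set_option autoImplicit false

open MeasureTheory Polynomial Metric Set Filter Topology
open scoped ComplexConjugate

namespace Pool.Agent.W356.CQ.LIM0

open Pool.Agent.W500.CS

lemma scon_cont (W : Set ℂ) (U : ℂ → ℝ) (h : SCon W U) : ∀ x ∈ W, ContinuousAt U x := by
  intro x hx
  obtain ⟨ε, hε, C, hb, hc⟩ := h x hx
  have h1 := (hc.continuousOn isOpen_ball).continuousAt (ball_mem_nhds x hε)
  have h2 : ContinuousAt (fun y : ℂ => C * ‖y‖ ^ 2) x := by fun_prop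
  have h3 := h1.sub h2
  refine h3.congr ?_
  filter_upwards with y
  simp

lemma seg_lip (hD : S_DIR) {r : ℕ} (W : Set ℂ) (M : ℝ) (U : ℂ → ℝ) (B : Fin r → ℂ → ℂ)
    (h : Dat W U B) (hM : ∀ i, ∀ x ∈ W, ‖B i x‖ ≤ M) (p q : ℂ) (hs : segment ℝ p q ⊆ W) :
    |U q - U p| ≤ M * ‖q - p‖ := by
  have hmem : ∀ t ∈ Icc (0:ℝ) 1, p + t * (q - p) ∈ W := by
    intro t ht
    apply hs
    rw [segment_eq_image']
    exact ⟨t, ht, by simp⟩
  have hder : ∀ t : ℝ, ∃ d : ℝ, t ∈ Ico (0:ℝ) 1 →
      HasDerivWithinAt (fun s : ℝ => U (p + s * (q - p))) d (Ici t) t ∧ ‖d‖ ≤ M * ‖q - p‖ := by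
    intro t
    by_cases ht : t ∈ Ico (0:ℝ) 1
    · obtain ⟨i, hi⟩ := hD r W U B h (p + t * (q - p)) (hmem t ⟨ht.1, ht.2.le⟩) (q - p)
      refine ⟨(B i (p + t * (q - p)) * (q - p)).re, fun _ => ⟨?_, ?_⟩⟩
      · rw [hasDerivWithinAt_Ioi_iff_Ici.symm]
        have h1 : HasDerivWithinAt (fun x : ℝ => x - t) 1 (Ioi t) t :=
          ((hasDerivAt_id t).sub_const t).hasDerivWithinAt
        have h0 : (0:ℝ) = t - t := (sub_self t).symm
        rw [h0] at hi
        have h2 := HasDerivWithinAt.comp (h := fun x : ℝ => x - t) t hi h1 ?_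
        · have h3 : (fun s : ℝ => U (p + t * (q - p) + s * (q - p))) ∘ (fun x : ℝ => x - t) =
              fun s : ℝ => U (p + s * (q - p)) := by
            funext s
            simp only [Function.comp]
            congr 1
            push_cast
            ring
          rw [h3, mul_one] at h2
          exact h2
        · intro x hx
          simp only [mem_Ioi] at hx ⊢
          linarith
      · rw [Real.norm_eq_abs]
        refine (Complex.abs_re_le_norm _).trans ?_
        rw [norm_mul]
        exact mul_le_mul_of_nonneg_right (hM i _ (hmem t ⟨ht.1, ht.2.le⟩)) (norm_nonneg _)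
    · exact ⟨0, fun h => absurd h ht⟩
  choose d hd using hder
  have hcont : ContinuousOn (fun s : ℝ => U (p + s * (q - p))) (Icc 0 1) := by
    intro t ht
    have h1 := scon_cont W U h.sc _ (hmem t ht)
    have h2 : ContinuousAt (fun s : ℝ => p + s * (q - p)) t := by fun_prop
    exact (ContinuousAt.comp (f := fun s : ℝ => p + s * (q - p)) h1 h2).continuousWithinAt
  have := norm_image_sub_le_of_norm_deriv_right_le_segment hcont (fun x hx => (hd x hx).1)
    (fun x hx => (hd x hx).2) 1 ⟨zero_le_one, le_refl _⟩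
  simpa using this

theorem main : S_DIR → S_LIM0 := by
  intro hD r R M U B hR h hM
  obtain ⟨M', hM'0, hM'⟩ : ∃ M' : ℝ, 0 ≤ M' ∧ ∀ i, ∀ x ∈ ball (0 : ℂ) R \ {0}, ‖B i x‖ ≤ M' :=
    ⟨max M 0, le_max_right _ _, fun i x hx => (hM i x hx).trans (le_max_left _ _)⟩
  have hseg : ∀ p q : ℂ, p ∈ ball (0:ℂ) R → q ∈ ball (0:ℂ) R → (0:ℂ) ∉ segment ℝ p q →
      |U q - U p| ≤ M' * ‖q - p‖ := by
    intro p q hp hq h0
    apply seg_lip hD _ M' U B h hM'
    intro x hx
    refine ⟨(convex_ball (0:ℂ) R).segment_subset hp hq hx, ?_⟩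
    rintro rfl
    exact h0 hx
  have hall : ∀ ρ : ℝ, 0 < ρ → ρ ≤ R → ∀ p q : ℂ, p ≠ 0 → q ≠ 0 → ‖p‖ < ρ → ‖q‖ < ρ →
      |U q - U p| ≤ 4 * M' * ρ := by
    intro ρ hρ hρR p q hp0 hq0 hp hq
    have hpR : p ∈ ball (0:ℂ) R := by
      rw [mem_ball_zero_iff]; linarith
    have hqR : q ∈ ball (0:ℂ) R := by
      rw [mem_ball_zero_iff]; linarith
    by_cases h0 : (0:ℂ) ∈ segment ℝ p q
    · obtain ⟨a, b, ha, hb, hab, habs⟩ := h0
      simp only [Complex.real_smul] at habs
      have ha0 : a ≠ 0 := by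
        rintro rfl
        have : b = 1 := by linarith
        rw [this] at habs
        simp at habs
        exact hq0 habs
      have hb0 : b ≠ 0 := by
        rintro rfl
        have : a = 1 := by linarith
        rw [this] at habs
        simp at habs
        exact hp0 habs
      have hv : ‖Complex.I * p‖ = ‖p‖ := by simp
      have hvR : Complex.I * p ∈ ball (0:ℂ) R := by
        rw [mem_ball_zero_iff, hv]; linarith
      have h1 : (0:ℂ) ∉ segment ℝ p (Complex.I * p) := by
        rintro ⟨c, d, hc, hd, hcd, hs⟩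
        simp only [Complex.real_smul] at hs
        have h2 : ((c:ℂ) + d * Complex.I) * p = 0 := by linear_combination hs
        rcases mul_eq_zero.1 h2 with h3 | h3
        · have h4 := congrArg Complex.re h3
          have h5 := congrArg Complex.im h3
          simp at h4 h5
          rw [h4, h5] at hcd
          norm_num at hcd
        · exact hp0 h3
      have h2 : (0:ℂ) ∉ segment ℝ (Complex.I * p) q := by
        rintro ⟨c, d, hc, hd, hcd, hs⟩
        simp only [Complex.real_smul] at hs
        have h2 : ((c * b : ℝ) * Complex.I - (d * a : ℝ)) * p = 0 := by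
          push_cast
          linear_combination (b:ℂ) * hs - (d:ℂ) * habs
        rcases mul_eq_zero.1 h2 with h3 | h3
        · have h4 := congrArg Complex.re h3
          have h5 := congrArg Complex.im h3
          simp only [Complex.sub_re, Complex.mul_re, Complex.ofReal_re, Complex.I_re,
            Complex.ofReal_im, Complex.I_im, Complex.zero_re, Complex.sub_im, Complex.mul_im,
            Complex.zero_im, mul_zero, mul_one, zero_sub, add_zero, sub_zero, zero_mul,
            neg_eq_zero, mul_eq_zero] at h4 h5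
          have h6 : d = 0 := by
            rcases h4 with h4 | h4
            · exact h4
            · exact absurd h4 ha0
          have h7 : c = 0 := by
            rcases h5 with h5 | h5
            · exact h5
            · exact absurd h5 hb0
          rw [h6, h7] at hcd
          norm_num at hcd
        · exact hp0 h3
      have h3 := hseg p (Complex.I * p) hpR hvR h1
      have h4 := hseg (Complex.I * p) q hvR hqR h2
      have h5 : ‖Complex.I * p - p‖ ≤ 2 * ρ := by
        refine (norm_sub_le _ _).trans ?_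
        rw [hv]; linarith
      have h6 : ‖q - Complex.I * p‖ ≤ 2 * ρ := by
        refine (norm_sub_le _ _).trans ?_
        rw [hv]; linarith
      have h7 : M' * ‖Complex.I * p - p‖ ≤ M' * (2 * ρ) := mul_le_mul_of_nonneg_left h5 hM'0
      have h8 : M' * ‖q - Complex.I * p‖ ≤ M' * (2 * ρ) := mul_le_mul_of_nonneg_left h6 hM'0
      have h9 : |U q - U p| ≤ |U q - U (Complex.I * p)| + |U (Complex.I * p) - U p| := by
        have := abs_add_le (U q - U (Complex.I * p)) (U (Complex.I * p) - U p)
        simpa using this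
      linarith
    · have h1 := hseg p q hpR hqR h0
      have h2 : ‖q - p‖ ≤ 2 * ρ := by
        refine (norm_sub_le _ _).trans ?_
        linarith
      have h3 : M' * ‖q - p‖ ≤ M' * (2 * ρ) := mul_le_mul_of_nonneg_left h2 hM'0
      have h4 : 0 ≤ M' * ρ := mul_nonneg hM'0 hρ.le
      linarith
  rw [← cauchy_map_iff_exists_tendsto, Metric.cauchy_iff]
  refine ⟨inferInstance, fun ε hε => ?_⟩
  obtain ⟨ρ, hρ, hρR, hρε⟩ : ∃ ρ : ℝ, 0 < ρ ∧ ρ ≤ R ∧ 4 * M' * ρ < ε := by
    refine ⟨min R (ε / (4 * M' + 1)), lt_min hR (by positivity), min_le_left _ _, ?_⟩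
    have h1 : 0 < 4 * M' + 1 := by positivity
    have h2 : min R (ε / (4 * M' + 1)) ≤ ε / (4 * M' + 1) := min_le_right _ _
    have h3 : 4 * M' * min R (ε / (4 * M' + 1)) ≤ 4 * M' * (ε / (4 * M' + 1)) :=
      mul_le_mul_of_nonneg_left h2 (by positivity)
    have h4 : 4 * M' * (ε / (4 * M' + 1)) < ε := by
      rw [mul_div_assoc', div_lt_iff₀ h1]
      nlinarith
    linarith
  refine ⟨U '' (ball (0:ℂ) ρ \ {0}), ?_, ?_⟩
  · apply image_mem_map
    rw [sdiff_eq, inter_comm]
    exact inter_mem_nhdsWithin _ (ball_mem_nhds 0 hρ)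
  · rintro _ ⟨x, hx, rfl⟩ _ ⟨y, hy, rfl⟩
    rw [Real.dist_eq]
    have := hall ρ hρ hρR y x hy.2 hx.2 (mem_ball_zero_iff.1 hy.1) (mem_ball_zero_iff.1 hx.1)
    linarith

end Pool.Agent.W356.CQ.LIM0
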